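import Pool.Agent.Q122.Gon.HGap

set_option autoImplicit false

/-!
# MP_7c139f_co: equal gonalities but different second gonalities

There is a finite connected loopless multigraph `G` whose divisorial gonality equals that of its
metric graph `Γ(G)`, but whose second divisorial gonality is larger than that of `Γ(G)`.
-/

namespace Pool.Agent.Results.MP_7c139f_co.SecondGonalityGap

open Q122.Gon

theorem result : ∃ (V E : Type) (_ : Fintype V) (_ : Fintype E) (_ : DecidableEq V)
    (_ : DecidableEq E) (G : MGraph V E), G.Connected ∧ G.mdgonR 1 = G.dgonR 1 ∧
      G.mdgonR 2 < G.dgonR 2 :=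
  exists_higher_gap

end Pool.Agent.Results.MP_7c139f_co.SecondGonalityGap
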